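import Pool.Agent.Helper72.TH.CDefs
import Pool.Agent.Helper36.Growth

/-!
# An inequality of Lojasiewicz type on a curve
-/

set_option autoImplicit false

namespace Pool.Agent.Helper14.TH

open MvPolynomial Filter Topology
open Pool.Agent.Helper36 (step iter)
open Pool.Agent.Helper29.TG

variable {ν : ℕ} {K : Type} [Field K]

/-- All homogeneous components vanish at almost all points of the sequence. -/
def VanC (𝒰 : Ultrafilter ℕ) (x : ℕ → Fin (ν + 1) → K) (g : MvPolynomial (Fin (ν + 1)) K) :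
    Prop :=
  ∀ M, ∀ᶠ n in (𝒰 : Filter ℕ), eval (x n) (homogeneousComponent M g) = 0

theorem vanC_mul {𝒰 : Ultrafilter ℕ} {x : ℕ → Fin (ν + 1) → K}
    {f : MvPolynomial (Fin (ν + 1)) K} {e : ℕ} (hf : f.IsHomogeneous e)
    (hv : ∀ᶠ n in (𝒰 : Filter ℕ), eval (x n) f = 0) (a : MvPolynomial (Fin (ν + 1)) K) :
    VanC 𝒰 x (a * f) := by
  intro M
  filter_upwards [hv] with n hn
  conv_lhs => rw [← sum_homogeneousComponent (φ := a), Finset.sum_mul, map_sum, map_sum]
  refine Finset.sum_eq_zero fun i _ => ?_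
  have h1 : (homogeneousComponent i a * f).IsHomogeneous (i + e) :=
    (homogeneousComponent_isHomogeneous i a).mul hf
  rw [homogeneousComponent_of_mem (h1 : _ ∈ homogeneousSubmodule _ _ _)]
  split_ifs
  · rw [map_mul, hn, mul_zero]
  · rw [map_zero]

theorem vanC_of_span {𝒰 : Ultrafilter ℕ} {x : ℕ → Fin (ν + 1) → K}
    {g : MvPolynomial (Fin (ν + 1)) K}
    (hg : g ∈ Ideal.span {g : MvPolynomial (Fin (ν + 1)) K | ∃ e : ℕ, g.IsHomogeneous e ∧
      ∀ᶠ n in (𝒰 : Filter ℕ), eval (x n) g = 0}) : VanC 𝒰 x g := by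
  have key : ∀ a, VanC 𝒰 x (a * g) := by
    induction hg using Submodule.span_induction with
    | mem g h =>
      obtain ⟨e, he, hv⟩ := h
      exact fun a => vanC_mul he hv a
    | zero =>
      intro a M
      rw [mul_zero]
      exact Eventually.of_forall fun n => by simp
    | add f g _ _ hf hg =>
      intro a M
      filter_upwards [hf a M, hg a M] with n h1 h2
      rw [mul_add, map_add, map_add, h1, h2, add_zero]
    | smul c g _ hg =>
      intro a
      rw [smul_eq_mul, ← mul_assoc]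
      exact hg (a * c)
  have := key 1
  rwa [one_mul] at this

/-- The inequality of Lojasiewicz type. -/
theorem exists_loj {L : Type} [Field L] [IsAlgClosed L] [Algebra K L]
    {𝒰 : Ultrafilter ℕ} {x : ℕ → Fin (ν + 1) → K} {y : Fin (ν + 1) → K}
    {l₁ l₂ : MvPolynomial (Fin (ν + 1)) K} (h₁ : l₁.IsHomogeneous 1) (h₂ : l₂.IsHomogeneous 1)
    (h : ∀ p : Fin (ν + 1) → L, (∀ (g : MvPolynomial (Fin (ν + 1)) K) (e : ℕ),
      g.IsHomogeneous e → (∀ᶠ n in (𝒰 : Filter ℕ), eval (x n) g = 0) → aeval p g = 0) →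
      aeval p l₁ = 0 → aeval p l₂ = 0 → cr p (fun i => algebraMap K L (y i)) = 0) :
    ∃ (M : ℕ) (A₁ A₂ : Fin (ν + 1) × Fin (ν + 1) → MvPolynomial (Fin (ν + 1)) K), 1 ≤ M ∧
      (∀ q, (A₁ q).IsHomogeneous (M - 1)) ∧ (∀ q, (A₂ q).IsHomogeneous (M - 1)) ∧
      ∀ᶠ n in (𝒰 : Filter ℕ), ∀ q, cr (x n) y q ^ M =
        eval (x n) (A₁ q) * eval (x n) l₁ + eval (x n) (A₂ q) * eval (x n) l₂ := by
  classical
  set T : Set (MvPolynomial (Fin (ν + 1)) K) := {g | ∃ e : ℕ, g.IsHomogeneous e ∧
      ∀ᶠ n in (𝒰 : Filter ℕ), eval (x n) g = 0} with hT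
  let c : Fin (ν + 1) × Fin (ν + 1) → MvPolynomial (Fin (ν + 1)) K := fun q =>
    X q.1 * C (y q.2) - X q.2 * C (y q.1)
  have hc : ∀ q, (c q).IsHomogeneous 1 := by
    intro q
    refine IsHomogeneous.sub ?_ ?_
    · exact (isHomogeneous_X K q.1).mul (isHomogeneous_C _ (y q.2))
    · exact (isHomogeneous_X K q.2).mul (isHomogeneous_C _ (y q.1))
  have hce : ∀ n q, eval (x n) (c q) = cr (x n) y q := by
    intro n q
    simp only [c, map_sub, map_mul, eval_X, eval_C, cr]
  have hr : ∀ q, ∃ r : ℕ, c q ^ r ∈ Ideal.span (T ∪ {l₁, l₂}) := by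
    intro q
    have h3 : c q ∈ (Ideal.span (T ∪ {l₁, l₂})).radical := by
      rw [← vanishingIdeal_zeroLocus_eq_radical (K := L), mem_vanishingIdeal_iff]
      intro p hp
      rw [mem_zeroLocus_iff] at hp
      have h4 := h p (fun g e hg hv => hp g (Ideal.subset_span (Or.inl ⟨e, hg, hv⟩)))
        (hp l₁ (Ideal.subset_span (Or.inr (Or.inl rfl))))
        (hp l₂ (Ideal.subset_span (Or.inr (Or.inr rfl))))
      have h5 := congrFun h4 q
      simp only [c, map_sub, map_mul, aeval_X, aeval_C]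
      exact h5
    exact h3
  choose r hr using hr
  set M : ℕ := (∑ q, r q) + 1 with hM
  have hMr : ∀ q, c q ^ M ∈ Ideal.span (T ∪ {l₁, l₂}) := by
    intro q
    have h3 : r q ≤ M := by
      have := Finset.single_le_sum (f := r) (fun i _ => Nat.zero_le _) (Finset.mem_univ q)
      omega
    rw [← Nat.sub_add_cancel h3, pow_add]
    exact Ideal.mul_mem_left _ _ (hr q)
  have hdec : ∀ q, ∃ a b g : MvPolynomial (Fin (ν + 1)) K, g ∈ Ideal.span T ∧
      c q ^ M = g + (a * l₁ + b * l₂) := by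
    intro q
    have h3 := hMr q
    rw [Ideal.span_union, Submodule.mem_sup] at h3
    obtain ⟨g, hg, z, hz, h4⟩ := h3
    rw [Ideal.mem_span_pair] at hz
    obtain ⟨a, b, hab⟩ := hz
    exact ⟨a, b, g, hg, by rw [hab, h4]⟩
  choose a b g hg habg using hdec
  refine ⟨M, fun q => homogeneousComponent (M - 1) (a q),
    fun q => homogeneousComponent (M - 1) (b q), by omega,
    fun q => homogeneousComponent_isHomogeneous _ _,
    fun q => homogeneousComponent_isHomogeneous _ _, ?_⟩
  rw [Filter.eventually_all]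
  intro q
  filter_upwards [vanC_of_span (hg q) M] with n hn
  have h3 := congrArg (homogeneousComponent M) (habg q)
  have h4 : (c q ^ M).IsHomogeneous M := by
    have := (hc q).pow M
    rwa [one_mul] at this
  rw [homogeneousComponent_of_mem (h4 : _ ∈ homogeneousSubmodule _ _ _), if_pos rfl, map_add,
    map_add] at h3
  have h5 : ∀ (p : MvPolynomial (Fin (ν + 1)) K) {l : MvPolynomial (Fin (ν + 1)) K},
      l.IsHomogeneous 1 → homogeneousComponent M (p * l) =
        homogeneousComponent (M - 1) p * l := by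
    intro p l hl
    have h6 := Pool.Agent.Helper36.homogeneousComponent_mul_of_homogeneous hl p (M - 1)
    rwa [show M - 1 + 1 = M by omega] at h6
  rw [h5 _ h₁, h5 _ h₂] at h3
  have h6 := congrArg (eval (x n)) h3
  rw [map_pow, hce, map_add, hn, zero_add, map_add, map_mul, map_mul] at h6
  exact h6

end Pool.Agent.Helper14.TH
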